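import Pool.Agent.Lib.MP_17201e_an.Stmt
import Pool.Agent.Lib.MP_17201e_an.Bridge

/-!
# MP_17201e_an: optimal shapes for the buckling eigenvalues under a perimeter constraint

For all `d ≥ 2`, `h ≥ 1` and `p > 0` there is an open set of finite measure and perimeter at most
`p` that minimises the `h`-th buckling eigenvalue, and every such minimiser is bounded.
-/

set_option autoImplicit false

namespace Pool.Agent.Results.MP_17201e_an.Minimizers

open Pool.Agent.Lib.Buckling

theorem result (d h : ℕ) (hd : 2 ≤ d) (hh : 1 ≤ h) (p : ℝ) (hp : 0 < p) :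
    (∃ Ω : Set (E d), IsMinimizer h p Ω ∧ 0 < lam h Ω ∧ lam h Ω < ⊤) ∧
    ∀ Ω : Set (E d), IsMinimizer h p Ω → Bornology.IsBounded Ω :=
  Pool.Agent.Lib.Buck.final' d h hd hh p hp

end Pool.Agent.Results.MP_17201e_an.Minimizers
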